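import Pool.Agent.TH503.PQ.Small
import Pool.Agent.TH503.PQ.Fam0
import Pool.Agent.TH503.PQ.Fam1
import Pool.Agent.TH503.PQ.Fam2
import Pool.Agent.TH503.PQ.Fam3
import Pool.Agent.TH503.PQ.Fam6

set_option autoImplicit false

/-!
# Kotzig's question: the orders of Eulerian P-quasigroups

A P-quasigroup whose decomposition of the complete graph is a single closed walk exists exactly
for the odd orders `n ≥ 3` with `n ≠ 5`.
-/

namespace Pool.Agent.Results.MP_42ae20_co.KotzigEulerian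

open Pool.Agent.TH503.PQ

theorem exists_odd (m : ℕ) (hm : 1 ≤ m) (h2 : m ≠ 2) (h3 : m ≠ 3) :
    ∃ op : ZMod (2 * m + 1) → ZMod (2 * m + 1) → ZMod (2 * m + 1),
      IsPQuasigroup op ∧ IsEulerian op := by
  by_cases e1 : m = 1
  · subst e1; exact Small.order3
  by_cases e4 : m = 4
  · subst e4; exact Small.order9
  by_cases e5 : m = 5
  · subst e5; exact Small.order11
  by_cases e6 : m = 6
  · subst e6; exact Small.order13
  have hcase : (∃ q, 2 ≤ q ∧ m = 4 * q) ∨ (∃ q, 2 ≤ q ∧ m = 4 * q + 1) ∨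
      (∃ q, 1 ≤ q ∧ m = 4 * q + 3) ∨ (∃ q, 1 ≤ q ∧ m = 8 * q + 2) ∨
      (∃ q, 1 ≤ q ∧ m = 8 * q + 6) := by
    have h8 : m % 8 < 8 := Nat.mod_lt _ (by norm_num)
    have hd := Nat.div_add_mod m 8
    generalize m % 8 = r at h8 hd
    generalize m / 8 = p at hd
    interval_cases r
    · exact Or.inl ⟨2 * p, by omega, by omega⟩
    · exact Or.inr <| Or.inl ⟨2 * p, by omega, by omega⟩
    · exact Or.inr <| Or.inr <| Or.inr <| Or.inl ⟨p, by omega, by omega⟩
    · exact Or.inr <| Or.inr <| Or.inl ⟨2 * p, by omega, by omega⟩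
    · exact Or.inl ⟨2 * p + 1, by omega, by omega⟩
    · exact Or.inr <| Or.inl ⟨2 * p + 1, by omega, by omega⟩
    · exact Or.inr <| Or.inr <| Or.inr <| Or.inr ⟨p, by omega, by omega⟩
    · exact Or.inr <| Or.inr <| Or.inl ⟨2 * p + 1, by omega, by omega⟩
  rcases hcase with ⟨q, hq, rfl⟩ | ⟨q, hq, rfl⟩ | ⟨q, hq, rfl⟩ | ⟨q, hq, rfl⟩ | ⟨q, hq, rfl⟩
  · exact Fam0.main q hq
  · exact Fam1.main q hq
  · exact Fam3.main q hq
  · exact Fam2.main q hq
  · exact Fam6.main q hq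

/-- For every `n ≥ 2`, an Eulerian P-quasigroup of order `n` exists if and only if `n` is odd and
`n ≠ 5`. -/
theorem result (n : ℕ) (hn : 2 ≤ n) :
    (∃ (V : Type) (_ : Fintype V) (op : V → V → V),
      Fintype.card V = n ∧ IsPQuasigroup op ∧ IsEulerian op) ↔ (Odd n ∧ n ≠ 5) := by
  constructor
  · rintro ⟨V, _, op, hc, hP, hE⟩
    have : Nonempty V := Fintype.card_pos_iff.1 (by omega)
    refine ⟨hc ▸ Small.odd_card op hP.toIsPGroupoid, ?_⟩
    intro h5
    exact Small.not_order5 (hc.trans h5) op hP hE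
  · rintro ⟨⟨m, rfl⟩, h5⟩
    by_cases h7 : m = 3
    · subst h7
      exact ⟨Fin 7, inferInstance, Small.t7, by simp, Small.order7⟩
    · obtain ⟨op, h⟩ := exists_odd m (by omega) (by omega) h7
      exact ⟨ZMod (2 * m + 1), inferInstance, op, ZMod.card _, h⟩

end Pool.Agent.Results.MP_42ae20_co.KotzigEulerian
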